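import Pool.Agent.MP049a2b.Main

/-!
The conformal dimension of the standard Sierpinski carpet is strictly larger than
`1 + log 2 / log 3` (question Q2 of the problem).

`carpet` (the standard carpet in the Euclidean plane), `Quasisymmetric` and `confDim` (the infimum
of the Hausdorff dimensions of all metric spaces that are quasisymmetrically homeomorphic to the
given one, without any regularity condition) are defined in `Pool/Agent/MP049a2b/Carpet.lean`.
-/

namespace Pool.Agent.Results.MP_049a2b_an.CarpetStrict

open Pool.Agent.MP049a2b

theorem result : ENNReal.ofReal (1 + Real.log 2 / Real.log 3) < confDim carpet :=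
  Pool.Agent.MP049a2b.main

end Pool.Agent.Results.MP_049a2b_an.CarpetStrict
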